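import Pool.Agent.MWKP.Stmts

/-!
# MWKP row RBT: residues at a wall
-/

namespace Pool.Agent.MWKP.H36

open Pool.Agent.Helper14_MV Pool.Agent.Helper2_MV Pool.Agent.MWK Pool.Agent.MWKP

/-! ### powers -/

theorem pw_nil (k : ℕ) : pw k ([] : List ℕ) = [] := by
  unfold pw
  induction k with
  | zero => rfl
  | succ k ih => rw [List.replicate_succ, List.flatten_cons, ih, List.nil_append]

theorem pw_zero (X : List ℕ) : pw 0 X = [] := rfl

theorem pw_add (i j : ℕ) (X : List ℕ) : pw (i + j) X = pw i X ++ pw j X := by
  unfold pw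
  rw [List.replicate_add, List.flatten_append]

theorem mem_pw {k : ℕ} {X : List ℕ} {l : ℕ} (h : l ∈ pw k X) : l ∈ X := by
  unfold pw at h
  rw [List.mem_flatten] at h
  obtain ⟨Y, hY, hl⟩ := h
  rw [List.eq_of_mem_replicate hY] at hl
  exact hl

theorem count_pw (k : ℕ) (X : List ℕ) (l : ℕ) : (pw k X).count l = k * X.count l := by
  induction k with
  | zero => simp [pw]
  | succ k ih =>
    rw [pw_add, List.count_append, ih]
    have : pw 1 X = X := by simp [pw]
    rw [this]
    ring

theorem flatMap_rep (k x : ℕ) (g : ℕ → List ℕ) : (List.replicate k x).flatMap g = pw k (g x) := by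
  unfold pw
  rw [List.flatMap_def, List.map_replicate]

/-! ### inserting words behind the segments -/

/-- `F s, F (s+1), ..` behind the segments -/
def sg (F : ℕ → List ℕ) : ℕ → List (List ℕ) → List (List ℕ)
  | _, [] => []
  | s, q :: qs => (q ++ F s) :: sg F (s + 1) qs

theorem sg_length (F : ℕ → List ℕ) : ∀ (qs : List (List ℕ)) (s : ℕ), (sg F s qs).length = qs.length
  | [], _ => rfl
  | q :: qs, s => by simp [sg, sg_length F qs (s + 1)]

theorem sg_sg (F G : ℕ → List ℕ) : ∀ (qs : List (List ℕ)) (s : ℕ),
    sg F s (sg G s qs) = sg (fun i => G i ++ F i) s qs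
  | [], _ => rfl
  | q :: qs, s => by simp [sg, sg_sg F G qs (s + 1)]

theorem ins_sg (L : List ℕ) (g : ℕ → List ℕ) (ξ : ℕ → ℕ → ℕ) : ∀ (qs : List (List ℕ)) (s : ℕ),
    ins L g ξ s qs = (sg (fun i => L.flatMap (fun z => pw (ξ i z) (g z))) s qs).flatten
  | [], _ => rfl
  | q :: qs, s => by
    rw [ins, sg, List.flatten_cons, ins_sg L g ξ qs (s + 1)]

theorem sg_congr {F G : ℕ → List ℕ} (h : ∀ i, F i = G i) (s : ℕ) (qs : List (List ℕ)) :
    sg F s qs = sg G s qs := by
  have : F = G := funext h
  rw [this]

/-- the relation between a segment and a larger one, the new letters are dead after `P₀` -/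
def Lg (P₀ : List ℕ) (q q' : List ℕ) : Prop :=
  (∀ l, q.count l ≤ q'.count l) ∧ ∀ l ∈ q', l ∈ q ∨ 2 ≤ P₀.count l

theorem lg_sg {P₀ : List ℕ} {F : ℕ → List ℕ} (hF : ∀ i, ∀ l ∈ F i, 2 ≤ P₀.count l) :
    ∀ (qs : List (List ℕ)) (s : ℕ), List.Forall₂ (Lg P₀) qs (sg F s qs)
  | [], _ => List.Forall₂.nil
  | q :: qs, s => by
    refine List.Forall₂.cons ⟨fun l => ?_, fun l hl => ?_⟩ (lg_sg hF qs (s + 1))
    · rw [List.count_append]
      omega
    · rcases List.mem_append.1 hl with h | h
      · exact Or.inl h
      · exact Or.inr (hF s l h)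

theorem lg_refl (P₀ : List ℕ) (qs : List (List ℕ)) : List.Forall₂ (Lg P₀) qs qs := by
  induction qs with
  | nil => exact List.Forall₂.nil
  | cons q qs ih => exact List.Forall₂.cons ⟨fun l => le_refl _, fun l hl => Or.inl hl⟩ ih

theorem ok_dead {P₀ : List ℕ} {qs qs' : List (List ℕ)} (h : List.Forall₂ (Lg P₀) qs qs') :
    ∀ A A' p p' : List ℕ, (∀ l, P₀.count l ≤ A'.count l) → (∀ l, A.count l ≤ A'.count l) →
      (∀ z ∈ p', z ∈ p ∨ 2 ≤ P₀.count z) → Ok A p qs → Ok A' p' qs' := by
  induction h with
  | nil => intro A A' p p' _ _ _ _; trivial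
  | @cons q q' qs qs' hq _ ih =>
    intro A A' p p' h1 h2 h3 h4
    obtain ⟨h5, h6⟩ := h4
    refine ⟨fun z hz => ?_, ih (A ++ q) (A' ++ q') q q' (fun l => ?_) (fun l => ?_) (fun z hz => ?_) h6⟩
    · have e1 := h1 z
      have e2 := h2 z
      have e3 := hq.1 z
      rw [List.count_append]
      rcases h3 z hz with h | h
      · have := h5 z h
        rw [List.count_append] at this
        omega
      · omega
    · rw [List.count_append]
      have e1 := h1 l
      omega
    · rw [List.count_append, List.count_append]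
      have e2 := h2 l
      have e3 := hq.1 l
      omega
    · exact hq.2 z hz

theorem okd_ok {g : ℕ → List ℕ} {x y : ℕ} (hxy : x ≠ y) {P A : List ℕ} {qs : List (List ℕ)}
    (h : Ok (P ++ A.flatMap g) (g x ++ g y) qs) : Okd g y 0 [x, y] P A qs := by
  have e : [x, y].filter (fun z => decide (z ≠ y)) = [x] := by
    simp [hxy]
  refine ⟨?_, fun hl l hlg => ?_⟩
  · rw [e]
    refine T.okm qs _ _ _ _ h (fun l => le_refl _) (fun z hz => ?_)
    simp only [List.flatMap_cons, List.flatMap_nil, List.append_nil] at hz
    exact List.mem_append_left _ hz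
  · cases qs with
    | nil => simp at hl
    | cons q qs =>
      have := h.1 l (List.mem_append_right _ hlg)
      simpa using this

/-! ### the head of a filtered word -/

theorem filter_pre {p : ℕ → Bool} {y : ℕ} (hy : p y = true) {w : List ℕ} {B : List ℕ}
    (hw : w = pre w y ++ y :: B) : w.filter p = (pre w y).filter p ++ y :: B.filter p := by
  conv_lhs => rw [hw]
  rw [List.filter_append, List.filter_cons_of_pos hy]

theorem eq_rep {x : ℕ} {w : List ℕ} (h : ∀ z ∈ w, z = x) : w = List.replicate (w.count x) x := by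
  rw [List.eq_replicate_iff]
  refine ⟨?_, h⟩
  symm
  rw [List.count_eq_length]
  intro b hb
  exact (h b hb).symm

theorem head_eq {u : List ℕ} {x y : ℕ} {cs : List ℕ} (hxy : x ≠ y) (hy : y ∈ u)
    (hc : Chc u [y] cs) (hspf : SpfStmt) (hx : x ∉ cs) :
    Sp y 0 [x, y] cs (u.filter (fun z => decide (z ∈ [x, y] ∨ z ∈ cs))) ∧
      ∃ b, hd cs (u.filter (fun z => decide (z ∈ [x, y] ∨ z ∈ cs))) =
        List.replicate ((pre u y).count x) x ++ y :: List.replicate b x := by
  have hyc : y ∉ cs := hc.not_mem (by simp)
  have hL : ∀ z ∈ [x, y], z ∉ cs := by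
    intro z hz
    simp only [List.mem_cons, List.not_mem_nil, or_false] at hz
    rcases hz with rfl | rfl
    · exact hx
    · exact hyc
  obtain ⟨h1, h2⟩ := hspf y 0 [x, y] cs [y] u hL hc (fun c c0 h => by omega) (fun c0 h => by omega)
  refine ⟨h1, ?_⟩
  set F : ℕ → Bool := fun z => decide (z ∈ [x, y] ∨ z ∈ cs) with hF
  have hFy : F y = true := by simp [hF]
  have hFx : F x = true := by simp [hF]
  -- the letters of the head
  have hlet : ∀ z ∈ hd cs (u.filter F), z = x ∨ z = y := by
    intro z hz
    cases cs with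
    | nil =>
      have := h1 z hz
      simpa using this
    | cons c cs =>
      obtain ⟨hcL, A, T, e, hA, _⟩ := h1
      have hcA : c ∉ A := fun h => hcL (hA c h)
      have : hd (c :: cs) (u.filter F) = A := by
        show pre (u.filter F) c = A
        rw [e, pre_split hcA]
      rw [this] at hz
      have := hA z hz
      simpa using this
  -- the head of u
  have hcount : (hd cs u).count y = 1 := by
    cases cs with
    | nil => exact hc y (by simp)
    | cons c cs => exact hc.1 y (by simp)
  have hpre : pre (hd cs u) y = pre u y := by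
    cases cs with
    | nil => rfl
    | cons c cs =>
      show pre (pre u c) y = pre u y
      have hyc' : y ∈ pre u c := mem_pre_of_count (hc.1 y (by simp))
      obtain ⟨D, hD⟩ := pre_prefix u c
      conv_rhs => rw [← hD]
      rw [pre_append_mem hyc']
  have hym : y ∈ hd cs u := List.count_pos_iff.1 (by omega)
  obtain ⟨B, hB⟩ := mem_split hym
  have hBy : y ∉ B := by
    intro h
    rw [hB, List.count_append, List.count_cons_self] at hcount
    have := List.count_pos_iff.2 h
    omega
  rw [h2] at hlet ⊢
  have e := filter_pre hFy hB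
  rw [e] at hlet ⊢
  rw [hpre] at hlet ⊢
  have k1 : ∀ z ∈ (pre u y).filter F, z = x := by
    intro z hz
    rcases hlet z (List.mem_append_left _ hz) with h | h
    · exact h
    · exact absurd (h ▸ (List.mem_filter.1 hz).1) (not_mem_pre u y)
  have k2 : ∀ z ∈ B.filter F, z = x := by
    intro z hz
    rcases hlet z (List.mem_append_right _ (List.mem_cons_of_mem _ hz)) with h | h
    · exact h
    · exact absurd (h ▸ (List.mem_filter.1 hz).1) hBy
  refine ⟨(B.filter F).count x, ?_⟩
  rw [← eq_rep k2]
  have e3 : (pre u y).filter F = List.replicate ((pre u y).count x) x := by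
    rw [← List.count_filter hFx]
    exact eq_rep k1
  rw [← e3]

/-! ### the row -/

section
variable {n : ℕ} {θ : FIC}

theorem trans' {a b c : List ℕ} (h : RR θ a b) (h' : RR θ b c) : RR θ a c := θ.trans h h'

theorem kdp (hKDD : KddStmt) (hK : Kn n θ) {P X Q : List ℕ} (hX : ∀ l ∈ X, 2 ≤ P.count l)
    {i j : ℕ} (hij : i ≡ j [MOD n]) : RR θ (P ++ pw i X ++ Q) (P ++ pw j X ++ Q) := by
  refine hKDD n θ hK P (pw i X) (pw j X) Q (fun l hl => hX l (mem_pw hl))
    (fun l hl => hX l (mem_pw hl)) (fun l => ?_)
  rw [count_pw, count_pw]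
  exact hij.mul_right _

/-- the statement (B) -/
theorem stepB (hKDD : KddStmt) (hK : Kn n θ) {x y : ℕ} (hxy : x ≠ y) {K : ℕ}
    {a b a' b' : ℕ} {ξ : ℕ → ℕ → ℕ}
    (H : ∀ (g : ℕ → List ℕ) (P : List ℕ) (qs : List (List ℕ)) (R : List ℕ), qs.length = K →
        Okd g y 0 [x, y] P (List.replicate a x ++ y :: List.replicate b x) qs →
        Okd g y 0 [x, y] P (List.replicate a' x ++ y :: List.replicate b' x) qs →
          RR θ (P ++ (List.replicate a x ++ y :: List.replicate b x).flatMap g ++ qs.flatten ++ R)
            (P ++ (List.replicate a' x ++ y :: List.replicate b' x).flatMap g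
              ++ ins [x, y] g ξ 0 qs ++ R))
    (P X C : List ℕ) (qs : List (List ℕ)) (R : List ℕ) (hX : ∀ l ∈ X, 2 ≤ P.count l)
    (hl : qs.length = K) (hOk : Ok (P ++ C) C qs) :
    RR θ (P ++ pw a X ++ C ++ pw b X ++ qs.flatten ++ R)
      (P ++ pw a' X ++ C ++ pw ((n - 1) * a' + a + b) X ++ qs.flatten ++ R) := by
  have hfm : ∀ (i j : ℕ) (g : ℕ → List ℕ), (List.replicate i x ++ y :: List.replicate j x).flatMap g
      = pw i (g x) ++ g y ++ pw j (g x) := by
    intro i j g
    rw [List.flatMap_append, List.flatMap_cons, flatMap_rep, flatMap_rep, List.append_assoc]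
  -- general form of H
  have H' : ∀ (U V : List ℕ) (P' : List ℕ) (qs' : List (List ℕ)) (R' : List ℕ), qs'.length = K →
      Ok (P' ++ (pw a U ++ V ++ pw b U)) (U ++ V) qs' →
      Ok (P' ++ (pw a' U ++ V ++ pw b' U)) (U ++ V) qs' →
        RR θ (P' ++ (pw a U ++ V ++ pw b U) ++ qs'.flatten ++ R')
          (P' ++ (pw a' U ++ V ++ pw b' U)
            ++ (sg (fun i => pw (ξ i x) U ++ pw (ξ i y) V) 0 qs').flatten ++ R') := by
    intro U V P' qs' R' h1 h2 h3
    let g : ℕ → List ℕ := fun z => if z = x then U else if z = y then V else []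
    have gx : g x = U := by simp [g]
    have gy : g y = V := by simp [g, Ne.symm hxy]
    have r := H g P' qs' R' h1 (okd_ok hxy (by rw [hfm, gx, gy]; exact h2))
      (okd_ok hxy (by rw [hfm, gx, gy]; exact h3))
    rw [hfm, hfm, ins_sg, gx, gy] at r
    rw [sg_congr (G := fun i => pw (ξ i x) U ++ pw (ξ i y) V) (fun i => by
      rw [List.flatMap_cons, List.flatMap_cons, List.flatMap_nil, List.append_nil, gx, gy])] at r
    exact r
  -- counts
  have hcnt : ∀ A B : List ℕ, ∀ l, P.count l ≤ (P ++ A ++ B).count l := by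
    intro A B l
    rw [List.count_append, List.count_append]
    omega
  -- (A)
  have hA := H' X C P qs R hl
    (ok_dead (lg_refl P qs) (P ++ C) _ C _ (fun l => by simp [List.count_append])
      (fun l => by simp only [List.count_append]; omega)
      (fun z hz => by
        rcases List.mem_append.1 hz with h | h
        · exact Or.inr (hX z h)
        · exact Or.inl h) hOk)
    (ok_dead (lg_refl P qs) (P ++ C) _ C _ (fun l => by simp [List.count_append])
      (fun l => by simp only [List.count_append]; omega)
      (fun z hz => by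
        rcases List.mem_append.1 hz with h | h
        · exact Or.inr (hX z h)
        · exact Or.inl h) hOk)
  -- (Y)
  have hY : RR θ (P ++ (pw a' X ++ C ++ pw b' X)
        ++ (sg (fun i => pw (ξ i x) X) 0 qs).flatten ++ R)
      (P ++ (pw a' X ++ C ++ pw b' X)
        ++ (sg (fun i => pw (ξ i x) X ++ pw (ξ i y) C) 0 qs).flatten ++ R) := by
    cases qs with
    | nil => exact RR.refl _
    | cons q qs =>
      have hF2 : List.Forall₂ (Lg P) (q :: qs)
          ((pw b' X ++ (q ++ pw (ξ 0 x) X)) :: sg (fun i => pw (ξ i x) X) 1 qs) := by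
        refine List.Forall₂.cons ⟨fun l => ?_, fun l hl => ?_⟩
          (lg_sg (fun i l hl => hX l (mem_pw hl)) qs 1)
        · simp only [List.count_append]
          omega
        · rcases List.mem_append.1 hl with h | h
          · exact Or.inr (hX l (mem_pw h))
          · rcases List.mem_append.1 h with h | h
            · exact Or.inl h
            · exact Or.inr (hX l (mem_pw h))
      have r := H' [] C (P ++ pw a' X)
        ((pw b' X ++ (q ++ pw (ξ 0 x) X)) :: sg (fun i => pw (ξ i x) X) 1 qs) R
        (by simpa [sg_length] using hl)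
        (ok_dead hF2 (P ++ C) _ C _ (fun l => by simp only [List.count_append]; omega)
          (fun l => by simp only [List.count_append]; omega)
          (fun z hz => Or.inl (by simpa using hz)) hOk)
        (ok_dead hF2 (P ++ C) _ C _ (fun l => by simp only [List.count_append]; omega)
          (fun l => by simp only [List.count_append]; omega)
          (fun z hz => Or.inl (by simpa using hz)) hOk)
      have e1 : sg (fun i => pw (ξ i x) ([] : List ℕ) ++ pw (ξ i y) C) 0
          ((pw b' X ++ (q ++ pw (ξ 0 x) X)) :: sg (fun i => pw (ξ i x) X) 1 qs) =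
          (pw b' X ++ (q ++ pw (ξ 0 x) X) ++ pw (ξ 0 y) C) ::
            sg (fun i => pw (ξ i x) X ++ pw (ξ i y) C) 1 qs := by
        rw [sg_congr (G := fun i => pw (ξ i y) C) (fun i => by rw [pw_nil, List.nil_append])]
        rw [sg, sg_sg]
      rw [e1] at r
      simp only [pw_nil, List.nil_append, List.append_nil, List.flatten_cons, List.append_assoc]
        at r
      simp only [sg, List.flatten_cons, List.append_assoc, zero_add]
      exact r
  -- (X)
  have hXX := H' X [] (P ++ pw a' X ++ C ++ pw ((n - 1) * a') X) qs R hl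
    (ok_dead (lg_refl P qs) (P ++ C) _ C _ (fun l => by simp only [List.count_append]; omega)
      (fun l => by simp only [List.count_append]; omega)
      (fun z hz => Or.inr (hX z (by simpa using hz))) hOk)
    (ok_dead (lg_refl P qs) (P ++ C) _ C _ (fun l => by simp only [List.count_append]; omega)
      (fun l => by simp only [List.count_append]; omega)
      (fun z hz => Or.inr (hX z (by simpa using hz))) hOk)
  simp only [pw_nil, List.append_nil] at hXX
  -- the right side of (X)
  have hn := hK.pos
  have hmod : (n - 1) * a' + a' + b' ≡ b' [MOD n] := by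
    have : (n - 1) * a' + a' + b' = b' + n * a' := by
      obtain ⟨m, rfl⟩ : ∃ m, n = m + 1 := ⟨n - 1, by omega⟩
      simp only [Nat.add_sub_cancel]
      ring
    rw [this]
    unfold Nat.ModEq
    simp
  have hD := kdp hKDD hK (P := P ++ pw a' X ++ C) (X := X)
    (Q := (sg (fun i => pw (ξ i x) X) 0 qs).flatten ++ R)
    (fun l hl => by
      have := hX l hl
      simp only [List.count_append]
      omega) hmod
  -- combine
  refine trans' (b := P ++ (pw a' X ++ C ++ pw b' X)
        ++ (sg (fun i => pw (ξ i x) X ++ pw (ξ i y) C) 0 qs).flatten ++ R) ?_ ?_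
  · have := hA
    simpa only [List.append_assoc] using this
  refine trans' (RR.symm hY) ?_
  refine trans' (b := P ++ pw a' X ++ C ++ pw ((n - 1) * a' + a' + b') X ++
    ((sg (fun i => pw (ξ i x) X) 0 qs).flatten ++ R)) ?_ ?_
  · have := hD.symm
    simpa only [List.append_assoc] using this
  · have := hXX.symm
    simpa only [pw_add, List.append_assoc] using this

end

/-- **RBT** -/
theorem rbt (hKDD : KddStmt) (hSPF : SpfStmt) (hPUR : PurStmt) : RbtStmt := by
  intro n θ hK u v x y cs huv hyu hyv hcu hcv
  have hn := hK.pos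
  by_cases htriv : x = y ∨ x ∈ cs
  · have key : ∀ w : List ℕ, Chc w [y] cs → (pre w y).count x = 0 := by
      intro w hw
      rw [List.count_eq_zero]
      rcases htriv with rfl | h
      · exact not_mem_pre w x
      · exact pre_asymm (hw.mem_pre y (by simp) x h)
    rw [key u hcu, key v hcv]
    intro P X C qs R _ _ _
    show RR θ (P ++ pw (0 + (n - 1) * 0) X ++ C ++ qs.flatten ++ R)
      (P ++ C ++ pw (0 + (n - 1) * 0) X ++ qs.flatten ++ R)
    simp only [mul_zero, add_zero, pw_zero, List.append_nil]
    exact RR.refl _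
  · rw [not_or] at htriv
    obtain ⟨hxy, hxc⟩ := htriv
    obtain ⟨hsu, b, hbu⟩ := head_eq hxy hyu hcu hSPF hxc
    obtain ⟨hsv, b', hbv⟩ := head_eq hxy hyv hcv hSPF hxc
    have huv' := huv.filter (fun z => decide (z ∈ [x, y] ∨ z ∈ cs))
    obtain ⟨ξ, _, H⟩ := hPUR n θ hK y cs 0 [x, y] _ _ (by simp) (by simp [hxy]) hsu hsv huv'
    rw [hbu, hbv] at H
    generalize (pre u y).count x = a at H ⊢
    generalize (pre v y).count x = a' at H ⊢
    intro P X C qs R hX hl hOk
    have hdead : ∀ A : List ℕ, ∀ l ∈ X, 2 ≤ (P ++ A).count l := by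
      intro A l hl'
      have := hX l hl'
      rw [List.count_append]
      omega
    -- step 2
    have hstep2 : ∀ P₁ : List ℕ, (∀ l ∈ X, 2 ≤ P₁.count l) → Ok (P₁ ++ C) C qs →
        RR θ (P₁ ++ pw a X ++ C ++ qs.flatten ++ R)
          (P₁ ++ pw a' X ++ C ++ pw ((n - 1) * a' + a) X ++ qs.flatten ++ R) := by
      intro P₁ hX₁ hOk₁
      have hd₁ : ∀ A : List ℕ, ∀ l ∈ X, 2 ≤ (P₁ ++ A).count l := by
        intro A l hl'
        have := hX₁ l hl'
        rw [List.count_append]
        omega
      have r := stepB hKDD hK hxy H P₁ X (C ++ pw ((n - 1) * b) X) qs R hX₁ hl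
        (ok_dead (lg_refl P₁ qs) (P₁ ++ C) _ C _ (fun l => by simp only [List.count_append]; omega)
          (fun l => by simp only [List.count_append]; omega)
          (fun z hz => by
            rcases List.mem_append.1 hz with h | h
            · exact Or.inl h
            · exact Or.inr (hX₁ z (mem_pw h))) hOk₁)
      have hm1 : (n - 1) * b + b ≡ 0 [MOD n] := by
        have : (n - 1) * b + b = n * b := by
          obtain ⟨m, rfl⟩ : ∃ m, n = m + 1 := ⟨n - 1, by omega⟩
          simp only [Nat.add_sub_cancel]
          ring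
        rw [this]
        unfold Nat.ModEq
        simp
      have hm2 : (n - 1) * b + ((n - 1) * a' + a + b) ≡ (n - 1) * a' + a [MOD n] := by
        have : (n - 1) * b + ((n - 1) * a' + a + b) = ((n - 1) * b + b) + ((n - 1) * a' + a) := by
          ring
        rw [this]
        have := hm1.add_right ((n - 1) * a' + a)
        simpa using this
      have d1 := kdp hKDD hK (P := P₁ ++ (pw a X ++ C)) (X := X) (Q := qs.flatten ++ R)
        (hd₁ _) hm1
      have d2 := kdp hKDD hK (P := P₁ ++ (pw a' X ++ C)) (X := X) (Q := qs.flatten ++ R)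
        (hd₁ _) hm2
      rw [pw_zero] at d1
      refine trans' (b := P₁ ++ (pw a X ++ C) ++ pw ((n - 1) * b + b) X ++ (qs.flatten ++ R)) ?_ ?_
      · have := d1.symm
        simpa only [List.append_assoc, List.nil_append, List.append_nil] using this
      refine trans' (b := P₁ ++ (pw a' X ++ C) ++ pw ((n - 1) * b + ((n - 1) * a' + a + b)) X ++
        (qs.flatten ++ R)) ?_ ?_
      · have := r
        rw [pw_add ((n - 1) * b) b, pw_add ((n - 1) * b) ((n - 1) * a' + a + b)]
        simpa only [List.append_assoc] using this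
      · have := d2
        simpa only [List.append_assoc] using this
    -- step 3
    have r := hstep2 (P ++ pw ((n - 1) * a') X) (hdead _)
      (ok_dead (lg_refl P qs) (P ++ C) _ C _ (fun l => by simp only [List.count_append]; omega)
        (fun l => by simp only [List.count_append]; omega) (fun z hz => Or.inl hz) hOk)
    have hm3 : (n - 1) * a' + a' ≡ 0 [MOD n] := by
      have : (n - 1) * a' + a' = n * a' := by
        obtain ⟨m, rfl⟩ : ∃ m, n = m + 1 := ⟨n - 1, by omega⟩
        simp only [Nat.add_sub_cancel]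
        ring
      rw [this]
      unfold Nat.ModEq
      simp
    have d3 := kdp hKDD hK (P := P) (X := X)
      (Q := C ++ (pw ((n - 1) * a' + a) X ++ (qs.flatten ++ R))) hX hm3
    rw [pw_zero] at d3
    have e1 : df n a a' = (n - 1) * a' + a := by
      unfold df
      ring
    rw [e1]
    refine trans' (b := P ++ pw ((n - 1) * a' + a') X ++
      (C ++ (pw ((n - 1) * a' + a) X ++ (qs.flatten ++ R)))) ?_ ?_
    · have := r
      rw [pw_add ((n - 1) * a') a', pw_add ((n - 1) * a') a] 
      rw [pw_add ((n - 1) * a') a] at this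
      simpa only [List.append_assoc] using this
    · have := d3
      simpa only [List.append_assoc, List.nil_append, List.append_nil] using this

end Pool.Agent.MWKP.H36
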